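import Pool.Agent.helper80.HM.SpecD

/-!
# Project HM: row NCB
-/

set_option autoImplicit false

namespace Pool.Agent.HM

open Finset Pool.Agent.helper38.Neg Pool.Agent.helper55.NT

theorem NCB : NCB_stmt := by
  classical
  intro n w s e P Q φ o x hcl
  obtain ⟨S, hS, hadj⟩ := hcl
  have hA : ∀ u ∈ S, ∀ v ∈ S, u < v → nadj P Q φ o x (e.symm u) (e.symm v) := by
    intro u hu v hv huv
    have h := hadj u hu v hv huv
    unfold nmat bl at h
    rw [Equiv.symm_apply_apply] at h
    by_contra hn
    rw [if_neg hn] at h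
    exact Bool.false_ne_true h
  have hsym : ∀ α β, nadj P Q φ o x α β → nadj P Q φ o x β α :=
    fun α β h => ⟨h.2.1, h.1, Ne.symm h.2.2.1, h.2.2.2.2, h.2.2.2.1⟩
  have hB : ∀ u ∈ S, ∀ v ∈ S, u ≠ v → nadj P Q φ o x (e.symm u) (e.symm v) := by
    intro u hu v hv huv
    rcases lt_or_gt_of_ne huv with h | h
    · exact hA u hu v hv h
    · exact hsym _ _ (hA v hv u hu h)
  set R : Finset (NV n w s) := S.map e.symm.toEmbedding with hR
  have hRc : R.card = nM n w s / 2 := by
    rw [hR, Finset.card_map, hS]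
  have hC : ∀ α ∈ R, ∀ β ∈ R, α ≠ β → nadj P Q φ o x α β := by
    intro α hα β hβ hne
    rw [hR, Finset.mem_map] at hα hβ
    obtain ⟨u, hu, rfl⟩ := hα
    obtain ⟨v, hv, rfl⟩ := hβ
    apply hB u hu v hv
    rintro rfl
    exact hne rfl
  have ho : 0 < n + w + s := lt_of_le_of_lt (Nat.zero_le _) o.2
  have hM : nM n w s / 2 = (n + w + s) + (s + ((n + 1) + 2 * s)) := by
    unfold nM
    omega
  have hR2 : 1 < R.card := by
    rw [hRc, hM]
    omega
  have hno : ∀ α ∈ R, ncls α ≠ none := by
    intro α hα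
    obtain ⟨β, hβ, hne⟩ := Finset.exists_mem_ne hR2 α
    exact (hC β hβ α hα hne).2.1
  have hinj : Set.InjOn (ncls (n := n) (w := w) (s := s)) (R : Set (NV n w s)) := by
    intro α hα β hβ h
    by_contra hne
    exact (hC α hα β hβ hne).2.2.1 h
  have himg : R.image ncls = (Finset.univ : Finset (NK n w s)).map Function.Embedding.some := by
    apply Finset.eq_of_subset_of_card_le
    · intro k hk
      rw [Finset.mem_image] at hk
      obtain ⟨α, hα, rfl⟩ := hk
      rw [Finset.mem_map]
      obtain ⟨k, hk⟩ := Option.ne_none_iff_exists'.1 (hno α hα)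
      exact ⟨k, Finset.mem_univ _, hk.symm⟩
    · rw [Finset.card_map, Finset.card_image_of_injOn hinj, hRc, hM, Finset.card_univ]
      simp only [Fintype.card_sum, Fintype.card_fin, Fintype.card_option]
      exact le_rfl
  have hslot : ∀ k : NK n w s, ∃ α ∈ R, ncls α = some k := by
    intro k
    have h : some k ∈ R.image ncls := by
      rw [himg, Finset.mem_map]
      exact ⟨k, Finset.mem_univ _, rfl⟩
    rw [Finset.mem_image] at h
    exact h
  -- the wires
  have hwire : ∀ i : Fin (n + w + s), ∃ b : Bool, (Sum.inl (i, b) : NV n w s) ∈ R := by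
    intro i
    obtain ⟨α, hα, hk⟩ := hslot (Sum.inl i)
    rcases α with ⟨i', b⟩ | ⟨g, b⟩ | c | j | j
    · have h : i' = i := by
        have h1 : (some (Sum.inl i') : Option (NK n w s)) = some (Sum.inl i) := hk
        exact Sum.inl.inj (Option.some.inj h1)
      subst h
      exact ⟨b, hα⟩
    · have h1 : (some (Sum.inr (Sum.inl g)) : Option (NK n w s)) = some (Sum.inl i) := hk
      cases Option.some.inj h1
    · have h1 : (some (Sum.inr (Sum.inr (Sum.inl c))) : Option (NK n w s)) = some (Sum.inl i) := hk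
      cases Option.some.inj h1
    · have h1 : (some (Sum.inr (Sum.inr (Sum.inr j))) : Option (NK n w s)) = some (Sum.inl i) := hk
      cases Option.some.inj h1
    · have h1 : (none : Option (NK n w s)) = some (Sum.inl i) := hk
      cases h1
  choose z hz using hwire
  have hchk : ∀ c : Option (Fin n), (Sum.inr (Sum.inr (Sum.inl c)) : NV n w s) ∈ R := by
    intro c
    obtain ⟨α, hα, hk⟩ := hslot (Sum.inr (Sum.inr (Sum.inl c)))
    rcases α with ⟨i', b⟩ | ⟨g, b⟩ | c' | j | j
    · have h1 : (some (Sum.inl i') : Option (NK n w s)) = some (Sum.inr (Sum.inr (Sum.inl c))) := hk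
      cases Option.some.inj h1
    · have h1 : (some (Sum.inr (Sum.inl g)) : Option (NK n w s)) =
        some (Sum.inr (Sum.inr (Sum.inl c))) := hk
      cases Option.some.inj h1
    · have h1 : (some (Sum.inr (Sum.inr (Sum.inl c'))) : Option (NK n w s)) =
        some (Sum.inr (Sum.inr (Sum.inl c))) := hk
      have h2 : c' = c := Sum.inl.inj (Sum.inr.inj (Sum.inr.inj (Option.some.inj h1)))
      subst h2
      exact hα
    · have h1 : (some (Sum.inr (Sum.inr (Sum.inr j))) : Option (NK n w s)) =
        some (Sum.inr (Sum.inr (Sum.inl c))) := hk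
      cases Option.some.inj h1
    · have h1 : (none : Option (NK n w s)) = some (Sum.inr (Sum.inr (Sum.inl c))) := hk
      cases h1
  have hgate : ∀ g : Fin s, ∃ b1 b2 : Bool, (Sum.inr (Sum.inl (g, b1, b2)) : NV n w s) ∈ R := by
    intro g
    obtain ⟨α, hα, hk⟩ := hslot (Sum.inr (Sum.inl g))
    rcases α with ⟨i', b⟩ | ⟨g', b1, b2⟩ | c' | j | j
    · have h1 : (some (Sum.inl i') : Option (NK n w s)) = some (Sum.inr (Sum.inl g)) := hk
      cases Option.some.inj h1
    · have h1 : (some (Sum.inr (Sum.inl g')) : Option (NK n w s)) =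
        some (Sum.inr (Sum.inl g)) := hk
      have h2 : g' = g := Sum.inl.inj (Sum.inr.inj (Option.some.inj h1))
      subst h2
      exact ⟨b1, b2, hα⟩
    · have h1 : (some (Sum.inr (Sum.inr (Sum.inl c'))) : Option (NK n w s)) =
        some (Sum.inr (Sum.inl g)) := hk
      cases Option.some.inj h1
    · have h1 : (some (Sum.inr (Sum.inr (Sum.inr j))) : Option (NK n w s)) =
        some (Sum.inr (Sum.inl g)) := hk
      cases Option.some.inj h1
    · have h1 : (none : Option (NK n w s)) = some (Sum.inr (Sum.inl g)) := hk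
      cases h1
  refine ⟨z, ?_, ?_, ?_⟩
  · intro c
    have h1 := (hC _ (hz (Fin.castAdd s (Fin.castAdd w c))) _ (hchk (some c)) (by
      intro h
      cases h)).2.2.2.1
    have h2 : Fin.castAdd s (Fin.castAdd w c) = Fin.castAdd s (Fin.castAdd w c) →
      z (Fin.castAdd s (Fin.castAdd w c)) = x c := h1
    exact h2 rfl
  · intro g
    obtain ⟨b1, b2, hg⟩ := hgate g
    have key : ∀ i : Fin (n + w + s), (i = P g → z i = b1) ∧ (i = Q g → z i = b2) ∧
        (i = Fin.natAdd (n + w) g → z i = φ g b1 b2) := by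
      intro i
      have h1 := (hC _ (hz i) _ hg (by
        intro h
        cases h)).2.2.2.1
      exact h1
    rw [(key (P g)).1 rfl, (key (Q g)).2.1 rfl]
    exact (key _).2.2 rfl
  · have h1 := (hC _ (hz o) _ (hchk none) (by
      intro h
      cases h)).2.2.2.1
    have h2 : o = o → z o = true := h1
    exact h2 rfl

end Pool.Agent.HM
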