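import Pool.Agent.helper80.HM.SpecD

/-!
# Project HM: row ACC
-/

set_option autoImplicit false

namespace Pool.Agent.HM

open Finset Pool.Agent.helper38.Neg Pool.Agent.helper55.NT

private theorem ACC_gate {N : ℕ} (g : Gate N) : ∃ (p q : Fin (N + 1)) (ψ : Bool → Bool → Bool),
    ∀ z : Fin (N + 1) → Bool, g.eval (fun i => z i.castSucc) = ψ (z p) (z q) := by
  cases g with
  | const b => exact ⟨Fin.last N, Fin.last N, fun _ _ => b, fun z => rfl⟩
  | and i j => exact ⟨i.castSucc, j.castSucc, fun a b => a && b, fun z => rfl⟩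
  | or i j => exact ⟨i.castSucc, j.castSucc, fun a b => a || b, fun z => rfl⟩
  | not i => exact ⟨i.castSucc, i.castSucc, fun a _ => !a, fun z => rfl⟩

private theorem ACC_ext {α : Type} {s : ℕ} (f : Fin s → α) (a : α) :
    ∃ F : Fin (s + 1) → α, (∀ j, F (Fin.castSucc j) = f j) ∧ F (Fin.last s) = a :=
  ⟨Fin.snoc (α := fun _ => α) f a, fun j => Fin.snoc_castSucc (α := fun _ => α) a f j,
    Fin.snoc_last (α := fun _ => α) a f⟩

private theorem ACC_snoc {N : ℕ} (v : Fin N → Bool) (a : Bool) (z : Fin (N + 1) → Bool) :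
    z = Fin.snoc (α := fun _ => Bool) v a ↔ (fun i : Fin N => z (Fin.castSucc i)) = v ∧
      z (Fin.last N) = a := by
  constructor
  · intro hz
    constructor
    · funext i
      rw [hz]
      exact Fin.snoc_castSucc (α := fun _ => Bool) a v i
    · rw [hz]
      exact Fin.snoc_last (α := fun _ => Bool) a v
  · rintro ⟨h2, h3⟩
    funext i
    refine Fin.lastCases ?_ (fun j => ?_) i
    · rw [h3]
      exact (Fin.snoc_last (α := fun _ => Bool) a v).symm
    · rw [← h2]
      exact (Fin.snoc_castSucc (α := fun _ => Bool) a (fun i : Fin N => z (Fin.castSucc i)) j).symm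

theorem ACC : ACC_stmt := by
  intro n s C
  induction C with
  | nil =>
    refine ⟨fun i => i.elim0, fun i => i.elim0, fun i => i.elim0, ?_⟩
    intro x z
    constructor
    · rintro rfl
      exact ⟨fun i => rfl, fun g => g.elim0⟩
    · rintro ⟨h, -⟩
      funext i
      exact h i
  | snoc C g ih =>
    rename_i s
    obtain ⟨P, Q, φ, h⟩ := ih
    obtain ⟨p, q, ψ, hψ⟩ := ACC_gate g
    obtain ⟨P', hP1, hP2⟩ := ACC_ext (fun j => (P j).castSucc) p
    obtain ⟨Q', hQ1, hQ2⟩ := ACC_ext (fun j => (Q j).castSucc) q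
    obtain ⟨φ', hφ1, hφ2⟩ := ACC_ext φ ψ
    refine ⟨P', Q', φ', ?_⟩
    intro x z
    have h1 : z = (Circuit.snoc C g).val x ↔
        (fun i : Fin (n + s) => z (Fin.castSucc i)) = C.val x ∧ z (Fin.last (n + s)) = g.eval (C.val x) :=
      ACC_snoc (C.val x) (g.eval (C.val x)) z
    rw [h1, h x (fun i => z (Fin.castSucc i))]
    have h6 : ((∀ i, z (Fin.castSucc (Fin.castAdd s i)) = x i) ∧ ∀ k, z (Fin.castSucc (Fin.natAdd n k)) =
          φ k (z (Fin.castSucc (P k))) (z (Fin.castSucc (Q k)))) →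
        (fun i : Fin (n + s) => z (Fin.castSucc i)) = C.val x := fun h4 =>
      (h x (fun i => z (Fin.castSucc i))).2 h4
    constructor
    · rintro ⟨⟨h2, h3⟩, h4⟩
      refine ⟨fun i => h2 i, ?_⟩
      intro k
      refine Fin.lastCases ?_ (fun j => ?_) k
      · rw [hP2, hQ2, hφ2]
        refine Eq.trans ?_ (hψ z)
        have h5 := h6 ⟨h2, h3⟩
        have h7 : g.eval (fun i : Fin (n + s) => z (Fin.castSucc i)) = g.eval (C.val x) := by rw [h5]
        exact h4.trans h7.symm
      · rw [hP1, hQ1, hφ1]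
        exact h3 j
    · rintro ⟨h2, h3⟩
      have h4 : (∀ i, z (Fin.castSucc (Fin.castAdd s i)) = x i) ∧ ∀ k, z (Fin.castSucc (Fin.natAdd n k)) =
          φ k (z (Fin.castSucc (P k))) (z (Fin.castSucc (Q k))) := by
        refine ⟨fun i => h2 i, fun k => ?_⟩
        have h5 := h3 (Fin.castSucc k)
        rw [hP1, hQ1, hφ1] at h5
        exact h5
      refine ⟨h4, ?_⟩
      have h7 := h3 (Fin.last s)
      rw [hP2, hQ2, hφ2] at h7
      have h8 : g.eval (fun i : Fin (n + s) => z (Fin.castSucc i)) = g.eval (C.val x) := by rw [h6 h4]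
      exact (h7.trans (hψ z).symm).trans h8

end Pool.Agent.HM
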